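import Pool.Agent.H96.KX.Targets

namespace Pool.Agent.H11.KX

open Finset Pool.Agent.H96.KX

theorem pf_KAP (hJ : S_JUN) (hV : S_HVY) : S_KAP := by
  intro H U Z _ _ _ _ _ _ _ h hp hQ N t f hf
  obtain ⟨w, hw0, hw1, hw2⟩ := hJ H U Z h hp N f hf
  refine ⟨w, hw0, hw1, ?_⟩
  have hQ0 : (0 : ℝ) < Fintype.card Z := Nat.cast_pos.2 Fintype.card_pos
  have hH0 : (0 : ℝ) < Fintype.card H := Nat.cast_pos.2 Fintype.card_pos
  obtain ⟨Q, hQd⟩ : ∃ Q : ℝ, Q = Fintype.card Z := ⟨_, rfl⟩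
  obtain ⟨c, hcd⟩ : ∃ c : ℝ, c = Fintype.card H := ⟨_, rfl⟩
  rw [← hQd] at hQ0 hQ
  rw [← hcd] at hH0 hQ
  obtain ⟨s, hs⟩ : ∃ s : ℝ, s = c / Q := ⟨_, rfl⟩
  have hs0 : 0 < s := by rw [hs]; positivity
  have hQs : Q ≤ s := by
    rw [hs, le_div_iff₀ hQ0]
    nlinarith [hQ]
  have e1 : Q / s = Q ^ 2 / c := by
    rw [hs]
    field_simp
  have e2 : 1 + s * Q / c = 2 := by
    have e3 : s * Q / c = 1 := by
      rw [hs]
      field_simp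
    rw [e3]
    norm_num
  have h1 : ∀ x, (∑ τ with t ≤ psz τ, w x τ) ^ 2 ≤
      2 ^ N * (Q ^ 2 / c) ^ t * ∑ τ, s ^ psz τ * w x τ ^ 2 := by
    intro x
    have h2 := hV Z N t s (w x) (by rw [← hQd]; exact hQs) (hw0 x)
    rw [← hQd, e1] at h2
    exact h2
  have h3 := hw2 s hs0.le
  rw [← hQd, ← hcd, e2] at h3
  calc ∑ x, (∑ τ with t ≤ psz τ, w x τ) ^ 2
      ≤ ∑ x, 2 ^ N * (Q ^ 2 / c) ^ t * ∑ τ, s ^ psz τ * w x τ ^ 2 :=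
        Finset.sum_le_sum fun x _ => h1 x
    _ = 2 ^ N * (Q ^ 2 / c) ^ t * ∑ x, ∑ τ, s ^ psz τ * w x τ ^ 2 := by
        rw [← Finset.mul_sum]
    _ ≤ 2 ^ N * (Q ^ 2 / c) ^ t * (2 ^ N * ((Fintype.card U : ℝ) * c) ^ N * ∑ a, f a ^ 2) :=
        mul_le_mul_of_nonneg_left h3 (by positivity)
    _ = kap H U Z N t * ∑ a, f a ^ 2 := by
        unfold kap
        rw [← hQd, ← hcd]
        have e4 : (4 : ℝ) ^ N = 2 ^ N * 2 ^ N := by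
          rw [← mul_pow]
          norm_num
        rw [e4]
        ring

end Pool.Agent.H11.KX
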