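import Pool.Agent.H96.KX.Targets2

namespace Pool.Agent.H11.KX

open Finset Pool.Agent.H96.KX
open Pool.Agent.H1.LP (Clause viol Relax Loc Sys Agree supp ip kk comb)

theorem x3_mem_supp {p B : ℕ} (l : Fin B → ZMod p) (j : Fin B) : j ∈ supp l ↔ l j ≠ 0 := by
  unfold Pool.Agent.H1.LP.supp
  simp

/-- expansion gives many unique neighbours -/
theorem x3_key {B R t : ℕ} (T : Fin R → Finset (Fin B)) (hT : ∀ i, (T i).card = 3)
    (hexp : ∀ S : Finset (Fin R), S.Nonempty → S.card ≤ 2 * t →
      5 * S.card < 3 * (S.biUnion T).card)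
    (A : Fin R → Fin B → ZMod 2) (hA : ∀ i j, A i j = if j ∈ T i then 1 else 0)
    (c : Fin R → ZMod 2) (hc : (supp c).Nonempty) (hc2 : (supp c).card ≤ 2 * t) :
    (supp c).card < 3 * (supp (comb A c)).card := by
  classical
  obtain ⟨S, hS⟩ : ∃ S, S = supp c := ⟨_, rfl⟩
  obtain ⟨U, hU⟩ : ∃ U, U = S.biUnion T := ⟨_, rfl⟩
  have h1 : 5 * S.card < 3 * U.card := by
    rw [hU]
    exact hexp S (by rw [hS]; exact hc) (by rw [hS]; exact hc2)
  have h2 : ∑ j ∈ U, (S.filter fun i => j ∈ T i).card = 3 * S.card := by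
    have h3 := Finset.sum_card_bipartiteAbove_eq_sum_card_bipartiteBelow
      (s := S) (t := U) (fun i j => j ∈ T i)
    unfold Finset.bipartiteAbove Finset.bipartiteBelow at h3
    rw [← h3]
    have h4 : ∀ i ∈ S, (U.filter fun j => j ∈ T i).card = 3 := by
      intro i hi
      rw [← hT i]
      congr 1
      ext j
      rw [Finset.mem_filter]
      refine ⟨fun h => h.2, fun h => ⟨?_, h⟩⟩
      rw [hU]
      exact Finset.mem_biUnion.2 ⟨i, hi, h⟩
    rw [Finset.sum_congr rfl h4, Finset.sum_const, smul_eq_mul, mul_comm]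
  have h5 : 2 * U.card ≤ 3 * S.card +
      (U.filter fun j => (S.filter fun i => j ∈ T i).card = 1).card := by
    have h6 : (U.filter fun j => (S.filter fun i => j ∈ T i).card = 1).card =
        ∑ j ∈ U, if (S.filter fun i => j ∈ T i).card = 1 then 1 else 0 := by
      rw [Finset.card_filter]
    rw [h6, ← h2, ← Finset.sum_add_distrib]
    have h7 : 2 * U.card = ∑ _j ∈ U, 2 := by
      rw [Finset.sum_const, smul_eq_mul, mul_comm]
    rw [h7]
    refine Finset.sum_le_sum fun j hj => ?_
    have h8 : 1 ≤ (S.filter fun i => j ∈ T i).card := by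
      rw [hU] at hj
      obtain ⟨i, hi, hij⟩ := Finset.mem_biUnion.1 hj
      exact Finset.card_pos.2 ⟨i, Finset.mem_filter.2 ⟨hi, hij⟩⟩
    split_ifs with h9
    · omega
    · omega
  have h10 : (U.filter fun j => (S.filter fun i => j ∈ T i).card = 1) ⊆ supp (comb A c) := by
    intro j hj
    obtain ⟨i, hi⟩ := Finset.card_eq_one.1 (Finset.mem_filter.1 hj).2
    have hiS : i ∈ S ∧ j ∈ T i := by
      have : i ∈ S.filter fun i => j ∈ T i := by rw [hi]; exact Finset.mem_singleton_self i
      exact Finset.mem_filter.1 this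
    rw [x3_mem_supp]
    have h11 : comb A c j = c i := by
      show ∑ i, c i * A i j = c i
      rw [Finset.sum_eq_single i]
      · rw [hA, if_pos hiS.2, mul_one]
      · intro i' _ hne
        by_cases h12 : i' ∈ S
        · have h13 : j ∉ T i' := by
            intro h14
            have : i' ∈ S.filter fun i => j ∈ T i := Finset.mem_filter.2 ⟨h12, h14⟩
            rw [hi] at this
            exact hne (Finset.mem_singleton.1 this)
          rw [hA, if_neg h13, mul_zero]
        · have h13 : c i' = 0 := by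
            by_contra h14
            apply h12
            rw [hS, x3_mem_supp]
            exact h14
          rw [h13, zero_mul]
      · intro h
        exact absurd (Finset.mem_univ i) h
    rw [h11]
    have h12 := hiS.1
    rw [hS, x3_mem_supp] at h12
    exact h12
  have h11 := Finset.card_le_card h10
  rw [← hS]
  omega

theorem pf_X3 (hE : S_EXP3) (hR : S_RHS3) : S_X3 := by
  intro ε hε
  obtain ⟨R0, hR0, hrhs⟩ := hR ε hε
  obtain ⟨E, B0, hE1, hexp⟩ := hE R0 hR0
  refine ⟨R0, E, max B0 1, hR0, hE1, ?_⟩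
  intro B hB
  obtain ⟨T, hT, hS⟩ := hexp B (le_trans (le_max_left _ _) hB)
  obtain ⟨A, hA⟩ : ∃ A : Fin (R0 * B) → Fin B → ZMod 2,
      ∀ i j, A i j = if j ∈ T i then 1 else 0 := ⟨_, fun i j => rfl⟩
  obtain ⟨be, hbe⟩ := hrhs B A (le_trans (le_max_right _ _) hB)
  have hkey := x3_key (t := B / E) T hT hS A hA
  refine ⟨T, ⟨A, be, ?_, ?_⟩, hT, hA, hbe⟩
  · intro c h1 h2
    have h3 := hkey c (Finset.card_pos.1 (by omega)) h2
    omega
  · intro c h1 h2
    by_cases h3 : (supp c).Nonempty
    · have h4 := hkey c h3 h1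
      rw [h2] at h4
      have h5 : supp (0 : Fin B → ZMod 2) = ∅ := by
        ext j
        rw [x3_mem_supp]
        simp
      rw [h5] at h4
      simp at h4
    · refine Finset.sum_eq_zero fun i _ => ?_
      have h4 : c i = 0 := by
        by_contra h5
        exact h3 ⟨i, (x3_mem_supp c i).2 h5⟩
      rw [h4, zero_mul]

end Pool.Agent.H11.KX
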